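import Pool.Agent.Helper91.Strip.One

set_option autoImplicit false
set_option linter.unusedSectionVars false
set_option linter.unusedVariables false

/-!
# Existence of an element of the strip `|x| < b`
-/

namespace Helper91.Strip

open Helper11.N1 Helper55.KE Helper25.KG Helper25.KW Helper48.KY Helper11.CT

section

variable {p a b c J ds l q : ℤ} {D dl : ℝ} {Cl : ℤ → ℤ → ℤ → ℤ → ℝ → Prop}

/-- the abscissa of `l` at `τ = 0` -/
theorem xl (W : Base p a b c J ds l q D dl Cl) (hA : Aux p a b ds D Cl) {X R : ℤ} {I : ℝ}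
    (h : Cl l 0 X R I) : ∃ k : ℤ, ∃ e : ℝ, (X : ℝ) + ds * I = -b + k * p + e ∧ 4 * |e| < 1 := by
  obtain ⟨Ie, h2, h3⟩ := elE W hA
  have h4 := dif W h h2.cl
  rw [sub_self, sub_self] at h4
  have h5 := zer W h4
  obtain ⟨k, hk⟩ := W.dvX h4 (dvd_zero _)
  refine ⟨k + 1, ds * (Ie - J), ?_, ?_⟩
  · have h6 : I = Ie := by linarith
    have h7 : (X : ℝ) = p - b - ds * J + p * k := by
      have : X = p - b - ds * J + p * k := by linarith
      rw [this]
      push_cast
      ring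
    rw [h7, h6]
    push_cast
    ring
  · rw [abs_mul]
    have : |(ds : ℝ)| = 1 := by
      rcases W.hds with ⟨rfl, _⟩ | ⟨rfl, _⟩ <;> norm_num
    rw [this, one_mul]
    exact h3

theorem xnl (W : Base p a b c J ds l q D dl Cl) (hA : Aux p a b ds D Cl) {X R : ℤ} {I : ℝ}
    (h : Cl l 0 X R I) : ¬ (-((b : ℝ) - 1 / 4) < X + ds * I ∧ (X : ℝ) + ds * I < b - 1 / 4) := by
  rintro ⟨h1, h2⟩
  obtain ⟨k, e, h3, h4⟩ := xl W hA h
  rw [h3] at h1 h2
  have h5 := abs_lt.1 (show |e| < 1 / 4 by linarith)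
  have h2b : 2 * (b : ℝ) < p := by exact_mod_cast W.h2b
  have hb : 2 ≤ (b : ℝ) := by exact_mod_cast W.hb
  rcases lt_trichotomy k 0 with hk | hk | hk
  · have : (k : ℝ) ≤ -1 := by exact_mod_cast (show k ≤ -1 by omega)
    nlinarith
  · subst hk
    push_cast at h1
    linarith
  · have : (1 : ℝ) ≤ k := by exact_mod_cast hk
    nlinarith

theorem xnpl (W : Base p a b c J ds l q D dl Cl) (hA : Aux p a b ds D Cl) (hD : 2 * (b : ℝ) < D)
    {N X R : ℤ} {I : ℝ} (hN : N + l = p)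
    (h : Cl N 0 X R I) : ¬ (-((b : ℝ) - 1 / 4) < X + ds * I ∧ (X : ℝ) + ds * I < b - 1 / 4) := by
  rintro ⟨h1, h2⟩
  have h0 := dif W W.cp h
  have hNl : p - N = l := by omega
  rw [hNl, sub_self] at h0
  obtain ⟨k, e, h3, h4⟩ := xl W hA h0
  push_cast at h3
  have h5 := abs_lt.1 (show |e| < 1 / 4 by linarith)
  have h2b : 2 * (b : ℝ) < p := by exact_mod_cast W.h2b
  have hb : 2 ≤ (b : ℝ) := by exact_mod_cast W.hb
  have hDp := W.hD
  have hx : (X : ℝ) + ds * I = b - k * p - e + ds * D := by linarith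
  rw [hx] at h1 h2
  rcases W.hds with ⟨h6, -⟩ | ⟨h6, -⟩
  · rw [h6] at h1 h2
    push_cast at h1 h2
    rcases lt_or_ge k 1 with hk | hk
    · have : (k : ℝ) ≤ 0 := by exact_mod_cast (show k ≤ 0 by omega)
      nlinarith
    · have : (1 : ℝ) ≤ k := by exact_mod_cast hk
      nlinarith
  · rw [h6] at h1 h2
    push_cast at h1 h2
    rcases lt_or_ge k 0 with hk | hk
    · have : (k : ℝ) ≤ -1 := by exact_mod_cast (show k ≤ -1 by omega)
      nlinarith
    · have : (0 : ℝ) ≤ k := by exact_mod_cast hk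
      nlinarith

/-- the same in the whole strip -/
theorem xnpl' (W : Base p a b c J ds l q D dl Cl) (S : Sel p a b l ds D dl Cl)
    (hD : 2 * (b : ℝ) < D) {N X R : ℤ} {I : ℝ} (hN : N + l = p)
    (h : Cl N 0 X R I) : ¬ (-(b : ℝ) < X + ds * I ∧ (X : ℝ) + ds * I < b) := by
  rintro ⟨h1, h2⟩
  have h0 := dif W W.cp W.cl
  have hNl : p - l = N := by omega
  rw [hNl] at h0
  have hl := W.hl
  have hlp := W.hlp
  obtain ⟨I', g1, g2, -⟩ := S.tr h0 (by norm_num) (by omega) (by omega)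
  have h4 := dif W h g1
  rw [sub_self, sub_self] at h4
  have h5 := zer W h4
  obtain ⟨k, hk⟩ := W.dvX h4 (dvd_zero _)
  obtain ⟨x', hx'⟩ : ∃ x' : ℝ, x' = ((0 - (-b - ds * J) : ℤ) : ℝ) + ds * I' := ⟨_, rfl⟩
  have hx : (X : ℝ) + ds * I = x' + k * p := by
    have h6 : I = I' := by linarith
    have h7 : (X : ℝ) = ((0 - (-b - ds * J) : ℤ) : ℝ) + p * k := by
      have : X = (0 - (-b - ds * J)) + p * k := by linarith
      rw [this]
      push_cast
      ring
    rw [h7, h6, hx']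
    ring
  rw [← hx'] at g2
  have hfo : ((0 - (-b - ds * J) : ℤ) : ℝ) + ds * (D - J) = b + ds * D := by
    push_cast
    ring
  rw [hfo] at g2
  rw [hx] at h1 h2
  have h2b : 2 * (b : ℝ) < p := by exact_mod_cast W.h2b
  have hb : 2 ≤ (b : ℝ) := by exact_mod_cast W.hb
  have hDp := W.hD
  rcases W.hds with ⟨h6, -⟩ | ⟨h6, -⟩
  · rw [h6] at g2
    push_cast at g2
    have k1 := (g2 (3 * b)).1
    have k2 := (g2 (p - b)).2.1
    push_cast at k1 k2
    have k3 := k1 (by linarith)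
    have k4 := k2 (by linarith)
    rcases lt_or_ge k 0 with hk | hk
    · have : (k : ℝ) ≤ -1 := by exact_mod_cast (show k ≤ -1 by omega)
      nlinarith
    · have : (0 : ℝ) ≤ k := by exact_mod_cast hk
      nlinarith
  · rw [h6] at g2
    push_cast at g2
    have k1 := (g2 (b - p)).1
    have k2 := (g2 (-b)).2.1
    push_cast at k1 k2
    have k3 := k1 (by linarith)
    have k4 := k2 (by linarith)
    rcases lt_or_ge k 1 with hk | hk
    · have : (k : ℝ) ≤ 0 := by exact_mod_cast (show k ≤ 0 by omega)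
      nlinarith
    · have : (1 : ℝ) ≤ k := by exact_mod_cast hk
      nlinarith

theorem ex1 (W : Base p a b c J ds l q D dl Cl) (hA : Aux p a b ds D Cl) (hD : 2 * (b : ℝ) < D)
    {N : ℤ} (hNp : N < p) (h1N : 1 < N) (hM : (p : ℝ) ≤ (N - 1) * (b - 1 / 4)) :
    ∃ N' X' R' I', SEl p b ds (fun M => P1 l p M ∧ M ≠ N) Cl N' X' R' I' := by
  have hb : 2 ≤ (b : ℝ) := by exact_mod_cast W.hb
  obtain ⟨n, X, R, I, hC, h1, h2, h3, h4⟩ := hPig W hA (b - 1 / 4) (N - 1) (by linarith)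
    (by omega) (by push_cast; exact hM)
  refine ⟨n, X, R, I, hC, h1, by omega, ⟨⟨?_, ?_⟩, by omega⟩, by linarith, by linarith⟩
  · rintro rfl
    exact xnl W hA hC ⟨h3, h4⟩
  · intro h5
    exact xnpl W hA hD h5 hC ⟨h3, h4⟩

end

theorem hEx1 : StEx1 := by
  intro p a b c J ds l q D dl Cl W hA hD N X R I hK hJ hIJ
  obtain ⟨Xe, Re, Ie, he, -, -, -, hpI⟩ := oneE' W hA
  have hI0 := he.I0
  have g1 := dm W hA he.cl hI0 hK.cl hK.N0.le hK.NP.1
  have g2 := dn W hA he.cl hI0 hK.cl hK.N0.le hK.NP.2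
  have hl := W.hl
  have hlp := W.hlp
  have hNl : l < N := by
    rcases lt_or_gt_of_ne hK.NP.1 with h | h
    · have := dm0 W hA he.cl hK.cl hK.N0.le h
      linarith
    · exact h
  have hNpl : p < N + l := by
    rcases lt_or_gt_of_ne hK.NP.2 with h | h
    · have := dn0 W hA he.cl hK.cl hK.N0.le h
      linarith
    · exact h
  have h2N : p + 2 ≤ 2 * N := by omega
  have h2NR : (p : ℝ) + 2 ≤ 2 * N := by exact_mod_cast h2N
  have hp0 : 0 < p := by have := W.ha; have := W.h2a; omega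
  have hpR : (0 : ℝ) < p := by exact_mod_cast hp0
  have hb := W.hb
  have hDp := W.hD
  rcases (by omega : b = 2 ∨ 3 ≤ b) with h | h
  · by_cases hc : 4 * p ≤ 7 * (N - 1)
    · left
      refine ex1 W hA hD hK.Np (by omega) ?_
      have : (4 : ℝ) * p ≤ 7 * (N - 1) := by exact_mod_cast hc
      rw [h]
      push_cast
      linarith
    · right
      refine ⟨h, ?_⟩
      have hc' : (7 : ℝ) * (N - 1) < 4 * p := by exact_mod_cast (not_le.1 hc)
      have h3 := pI W hK.cl hK.N0.le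
      have hD0 : 0 < D := by
        have hbR : (2 : ℝ) ≤ b := by exact_mod_cast hb
        linarith
      have h4 : (p : ℝ) * (14 * I) < p * (8 * D + 7) := by
        nlinarith
      exact lt_of_mul_lt_mul_left h4 hpR.le
  · left
    refine ex1 W hA hD hK.Np (by omega) ?_
    have hbR : (3 : ℝ) ≤ b := by exact_mod_cast h
    nlinarith

/-- `StEx0` with the exact companions -/
def StEx0S : Prop :=
  ∀ {p a b c J ds l q : ℤ} {D dl : ℝ} {Cl : ℤ → ℤ → ℤ → ℤ → ℝ → Prop},
    Base p a b c J ds l q D dl Cl → Sel p a b l ds D dl Cl → Aux p a b ds D Cl →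
    2 * (b : ℝ) < D →
    ∀ {N X R : ℤ} {I : ℝ}, KGF p a b ds D (P1 l p) Cl N X R I → I < J → D < I + J → D < 2 * I →
    (∃ N' X' R' I', SEl p b ds (fun M => P1 l p M ∧ M ≠ N) Cl N' X' R' I') ∨
      (b = 2 ∧ 4 * I < 2 * D + 1)

theorem hEx0S : StEx0S := by
  intro p a b c J ds l q D dl Cl W S hA hD N X R I hK hJ hIJ hDI
  obtain ⟨Xe, Re, Ie, he, -, -, -, hpI⟩ := oneE' W hA
  have hI0 := he.I0
  have hl := W.hl
  have hlp := W.hlp
  have hNl : N < l := by
    rcases lt_or_gt_of_ne hK.NP.1 with h | h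
    · exact h
    · have := dm1 W hA he.cl hK.cl h
      linarith
  have hp0 : 0 < p := by have := W.ha; have := W.h2a; omega
  have hpR : (0 : ℝ) < p := by exact_mod_cast hp0
  have hb := W.hb
  have hDp := W.hD
  have h2b := W.h2b
  have hbR : (2 : ℝ) ≤ b := by exact_mod_cast hb
  have hD0 : 0 < D := by linarith
  have h3 := pI W hK.cl hK.N0.le
  have h2N : p + 1 ≤ 2 * N := by
    by_contra hc
    have h4 : (2 * N : ℝ) ≤ p := by exact_mod_cast (show 2 * N ≤ p by omega)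
    nlinarith
  have h2NR : (p : ℝ) + 1 ≤ 2 * N := by exact_mod_cast h2N
  have main : (p : ℝ) ≤ (N - 1) * b →
      ∃ N' X' R' I', SEl p b ds (fun M => P1 l p M ∧ M ≠ N) Cl N' X' R' I' := by
    intro hM
    obtain ⟨n, X, R, I, hC, h1, h2, h3, h4⟩ := hPig W hA b (N - 1) (by linarith)
      (by omega) (by push_cast; exact hM)
    refine ⟨n, X, R, I, hC, h1, by omega, ⟨⟨by omega, ?_⟩, by omega⟩, h3, h4⟩
    intro h5
    exact xnpl' W S hD h5 hC ⟨h3, h4⟩
  rcases (by omega : b = 2 ∨ 3 ≤ b) with h | h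
  · by_cases hc : p ≤ 2 * (N - 1)
    · left
      apply main
      have : (p : ℝ) ≤ 2 * (N - 1) := by exact_mod_cast hc
      rw [h]
      push_cast
      linarith
    · right
      refine ⟨h, ?_⟩
      have hc' : (2 : ℝ) * N ≤ p + 1 := by exact_mod_cast (show 2 * N ≤ p + 1 by omega)
      have h4 : (p : ℝ) * (4 * I) < p * (2 * D + 1) := by
        nlinarith
      exact lt_of_mul_lt_mul_left h4 hpR.le
  · left
    apply main
    have h3R : (3 : ℝ) ≤ b := by exact_mod_cast h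
    have hp3 : (3 : ℝ) ≤ p := by exact_mod_cast (show 3 ≤ p by omega)
    nlinarith

end Helper91.Strip
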