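import Pool.Agent.Helper25.KW.S1P

set_option autoImplicit false
set_option linter.unusedSectionVars false
set_option linter.unusedVariables false

/-!
# Elements of the strip `|x| < b`: selection, pigeonhole
-/

namespace Helper91.Strip

open Helper11.N1 Helper55.KE Helper25.KG Helper25.KW Helper48.KY Helper11.CT

section

variable {p a b c J ds l q : ℤ} {D dl : ℝ} {Cl : ℤ → ℤ → ℤ → ℤ → ℝ → Prop}

theorem strip_tr {X : ℤ} {I I' : ℝ} (h1 : Tr dl (X + ds * I) (X + ds * I'))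
    (x1 : -(b : ℝ) < X + ds * I) (x2 : (X : ℝ) + ds * I < b) :
    -(b : ℝ) < X + ds * I' ∧ (X : ℝ) + ds * I' < b := by
  refine ⟨?_, (h1 b).2.1 x2⟩
  have := (h1 (-b)).1
  push_cast at this
  exact this x1

end

theorem hNone : StNone := by
  intro p a b c J ds l q D dl Cl W S Z hZ Nk Nw hno N τ X R I hC hτ h0 hp hP hk hw x1 x2 hz
  obtain ⟨I', h1, h2, h3⟩ := S.tr hC hτ h0 hp
  obtain ⟨y1, y2⟩ := strip_tr (b := b) h2 x1 x2
  exact hno ⟨N, X, R, I', ⟨h1, h0, hp, ⟨hP, hk, hw⟩, y1, y2⟩, hZ _ _ _ _ h2 h3 hz⟩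

theorem hPick : StPick := by
  classical
  intro p a b c J ds l q D dl Cl W S Nk hU Z hZ hR hex
  have hp0 : 0 < p := by have := W.ha; have := W.h2a; omega
  have hpR : (0 : ℝ) < p := by exact_mod_cast hp0
  have h0 : ∃ n : ℕ, ∃ X R I, SEl p b ds (fun M => P1 l p M ∧ M ≠ Nk) Cl n X R I ∧ Z X R I := by
    obtain ⟨N, X, R, I, hK, hz⟩ := hex
    refine ⟨N.toNat, X, R, I, ?_, hz⟩
    rw [Int.toNat_of_nonneg hK.N0.le]
    exact hK
  obtain ⟨X, R, I, hK, hz⟩ := Nat.find_spec h0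
  have hmin : ∀ {n : ℕ} {X R : ℤ} {I : ℝ},
      SEl p b ds (fun M => P1 l p M ∧ M ≠ Nk) Cl n X R I → Z X R I →
      Nat.find h0 ≤ n := fun h1 h2 => Nat.find_min' h0 ⟨_, _, _, h1, h2⟩
  obtain ⟨n, hn⟩ : ∃ n, n = Nat.find h0 := ⟨_, rfl⟩
  rw [← hn] at hK
  -- the row
  obtain ⟨k, hk⟩ : ∃ k : ℤ, k = -⌊((X : ℝ) + ds * I + R + a) / p⌋ := ⟨_, rfl⟩
  have hcl : Cl (n : ℤ) 0 X (R + k * p) I := by
    have h1 := W.add hK.cl (Base.smul W W.cR k)
    simpa using h1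
  have hfl1 : ((-k : ℤ) : ℝ) ≤ ((X : ℝ) + ds * I + R + a) / p := by
    rw [hk, neg_neg]
    exact Int.floor_le _
  have hfl2 : ((X : ℝ) + ds * I + R + a) / p < ((-k : ℤ) : ℝ) + 1 := by
    rw [hk, neg_neg]
    exact Int.lt_floor_add_one _
  rw [le_div_iff₀ hpR] at hfl1
  rw [div_lt_iff₀ hpR] at hfl2
  push_cast at hfl1 hfl2
  obtain ⟨s, hs⟩ : ∃ s : ℝ, s = (X : ℝ) + ds * I + ((R + k * p : ℤ) : ℝ) := ⟨_, rfl⟩
  have hs1 : -(a : ℝ) ≤ s := by
    rw [hs]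
    push_cast
    linarith
  have hs2 : s < p - a := by
    rw [hs]
    push_cast
    linarith
  have hd : (ds : ℝ) * ds = 1 := by
    rcases W.hds with ⟨rfl, _⟩ | ⟨rfl, _⟩ <;> norm_num
  have hni : ∀ m : ℤ, s ≠ m := by
    intro m hm
    have h1 : I = ((ds * (m - X - (R + k * p)) : ℤ) : ℝ) := by
      rw [hs] at hm
      push_cast at hm ⊢
      linear_combination (ds : ℝ) * hm - I * hd
    have h2 := W.int hcl h1
    rw [zero_mul, sub_zero] at h2
    have h3 := Int.le_of_dvd hK.N0 h2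
    have h4 := hK.Np
    have h5 := W.hpq
    omega
  have hs3 : (a : ℝ) < s := by
    by_contra hc
    push Not at hc
    have hc1 : s < a := lt_of_le_of_ne hc (hni a)
    have hc2 : -(a : ℝ) < s := by
      refine lt_of_le_of_ne hs1 ?_
      have := hni (-a)
      push_cast at this
      exact fun h => this h.symm
    refine hK.NP.2 (hU hcl (by simp) hK.N0 hK.Np hK.NP.1
      ⟨hK.x1, hK.x2, ?_, ?_⟩ trivial)
    · rw [← hs]
      exact hc2
    · rw [← hs]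
      exact hc1
  refine ⟨n, X, R + k * p, I, ⟨hcl, hK.N0, hK.Np, hK.NP.1, hK.x1, hK.x2⟩, hK.NP.2,
    (W.pos0 hK.cl).2 hK.N0, (W.ltp0 hK.cl).2 hK.Np, hR _ _ _ _ hz, ?_, ?_, ?_⟩
  · rw [← hs]
    exact hs3
  · rw [← hs]
    exact hs2
  · intro N' τ X' R' I' hC hτ h0' hp hP' hkk hww x1 x2 hz'
    obtain ⟨I2, h1, h2, h3⟩ := S.tr hC hτ h0' hp
    obtain ⟨y1, y2⟩ := strip_tr (b := b) h2 x1 x2
    have hm : (n : ℤ) ≤ N' := by
      have := hmin (n := N'.toNat) (X := X') (R := R') (I := I2) (by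
        rw [Int.toNat_of_nonneg h0'.le]
        exact ⟨h1, h0', hp, ⟨hP', hkk⟩, y1, y2⟩) (hZ _ _ _ _ h2 h3 hz')
      omega
    by_contra hlt
    push Not at hlt
    have hd := W.add hcl (W.neg hC)
    have h4 := W.pos hd (by rw [zero_add, abs_neg]; omega) (by linarith)
    exact hww (by omega)

theorem hPig : StPig := by
  intro p a b c J ds l q D dl Cl W hA d M hd hM hpM
  have hp0 : 0 < p := by have := W.ha; have := W.h2a; omega
  have hpR : (0 : ℝ) < p := by exact_mod_cast hp0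
  obtain ⟨Xe, Re, Ie, he, -, -, -, hpI⟩ := oneE' W hA
  obtain ⟨m, hm⟩ := Int.eq_ofNat_of_zero_le hM.le
  have hm0 : 0 < m := by omega
  obtain ⟨j, k, hk0, hkm, hjk⟩ := Real.exists_int_int_abs_mul_sub_le
    (((Xe : ℝ) + ds * Ie) / p) hm0
  have hcl := W.add (Base.smul W he.cl k) (Base.smul W W.cX (-j))
  have hmR : (M : ℝ) = m := by rw [hm]; simp
  have hm1 : (0 : ℝ) < (m : ℝ) + 1 := by positivity
  have e1 : ((k : ℝ) * (((Xe : ℝ) + ds * Ie) / p) - j) * p = k * Xe - j * p + ds * (k * Ie) := by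
    field_simp
    ring
  have h1 : |(k : ℝ) * Xe - j * p + ds * (k * Ie)| ≤ p / (m + 1) := by
    rw [← e1, abs_mul, abs_of_pos hpR]
    calc |(k : ℝ) * (((Xe : ℝ) + ds * Ie) / p) - j| * p ≤ 1 / (m + 1) * p :=
          mul_le_mul_of_nonneg_right hjk hpR.le
      _ = p / (m + 1) := by ring
  have h2 : (p : ℝ) / (m + 1) < d := by
    rw [div_lt_iff₀ hm1]
    rw [hmR] at hpM
    nlinarith
  have h3 := abs_lt.1 (lt_of_le_of_lt h1 h2)
  refine ⟨k, k * Xe + -j * p, k * Re, k * Ie, ?_, hk0, ?_, ?_, ?_⟩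
  · simpa using hcl
  · rw [hm]
    exact_mod_cast hkm
  · push_cast
    linarith [h3.1]
  · push_cast
    linarith [h3.2]

end Helper91.Strip
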