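import Pool.Agent.Helper91.Strip.Two
import Pool.Agent.Helper48.KY.StripA

set_option autoImplicit false
set_option linter.unusedSectionVars false
set_option linter.unusedVariables false

/-!
# Existence of an element of the strip `|x| < b`, `I < J` (strong form)
-/

namespace Helper91.Strip

open Helper11.N1 Helper55.KE Helper25.KG Helper25.KW Helper48.KY Helper11.CT

/-- `I < J`, `D < 2 I`: there is an element of the strip with a smaller index -/
theorem ex0 {p a b c J ds l q : ℤ} {D dl : ℝ} {Cl : ℤ → ℤ → ℤ → ℤ → ℝ → Prop}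
    (W : Base p a b c J ds l q D dl Cl) (S : Sel p a b l ds D dl Cl) (hA : Aux p a b ds D Cl)
    (hD : 2 * (b : ℝ) < D) {N X R : ℤ} {I : ℝ} (hK : KGF p a b ds D (P1 l p) Cl N X R I)
    (hJ : I < J) (hDI : D < 2 * I) :
    ∃ N' X' R' I', SEl p b ds (fun M => P1 l p M ∧ M ≠ N) Cl N' X' R' I' ∧ N' < N ∧
      N' * b ≤ p := by
  obtain ⟨Xe, Re, Ie, he, -, -, -, hpI⟩ := oneE' W hA
  have hI0 := he.I0
  have hl := W.hl
  have hlp := W.hlp
  have hNl : N < l := by
    rcases lt_or_gt_of_ne hK.NP.1 with h | h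
    · exact h
    · have := dm1 W hA he.cl hK.cl h
      linarith
  have hp0 : 0 < p := by have := W.ha; have := W.h2a; omega
  have hpR : (0 : ℝ) < p := by exact_mod_cast hp0
  have hb := W.hb
  have hbR : (2 : ℝ) ≤ b := by exact_mod_cast hb
  have hD0 : 0 < D := by linarith
  have h3 := pI W hK.cl hK.N0.le
  have h2N : p < 2 * N := by
    by_contra hc
    have h4 : (2 * N : ℝ) ≤ p := by exact_mod_cast (show 2 * N ≤ p by omega)
    nlinarith
  obtain ⟨n, X', R', I', hC, h1, h2, h4, h5⟩ := stripA W hA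
  have h6 : n * 2 ≤ n * b := mul_le_mul_of_nonneg_left hb h1.le
  refine ⟨n, X', R', I', ⟨hC, h1, by omega, ⟨⟨by omega, ?_⟩, by omega⟩, h4, h5⟩, by omega, h2⟩
  intro h7
  exact xnpl' W S hD h7 hC ⟨h4, h5⟩

end Helper91.Strip
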